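import Pool.Agent.Helper44.Lag.Ray

set_option linter.all false

namespace Pool.Agent.Helper44.Lag
open Finset MeasureTheory Filter Topology

variable (p q : ℕ)

/-- numbers with an infinite expansion all of whose remainders are at most τ -/
def KS (τ : ℝ) : Set ℝ :=
  {y | ∃ Y : ℕ → ℝ, Y 0 = y ∧ (∀ i, |Y i| ≤ τ) ∧ ∀ i, ∃ n : ℤ, (q:ℝ) * Y (i+1) = p * Y i - n}

lemma KS_mono {τ τ' : ℝ} (h : τ ≤ τ') : KS p q τ ⊆ KS p q τ' := by
  rintro y ⟨Y, h0, h1, h2⟩
  exact ⟨Y, h0, fun i => (h1 i).trans h, h2⟩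

lemma KS_shift (hq : 0 < q) {τ y : ℝ} (h : y ∈ KS p q τ) :
    ∃ s : ℤ, |(p:ℝ) * y - s| ≤ q * τ ∧ ((p:ℝ)/q) * y - s / q ∈ KS p q τ := by
  obtain ⟨Y, h0, h1, h2⟩ := h
  have hq0 : (0:ℝ) < q := by exact_mod_cast hq
  obtain ⟨s, hs⟩ := h2 0
  rw [h0] at hs
  refine ⟨s, ?_, ?_⟩
  · rw [← hs, abs_mul, abs_of_pos hq0]; exact mul_le_mul_of_nonneg_left (h1 _) hq0.le
  · refine ⟨fun i => Y (i+1), ?_, fun i => h1 _, fun i => h2 _⟩
    show Y (0+1) = _
    field_simp; linarith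

lemma mem_KS (hq : 0 < q) (ξ t : ℝ) (h : limsup (fun n : ℕ => nn (ξ * ((p:ℝ)/q)^n)) atTop = t) : t ∈ KS p q t := by
  have hq0 : (0:ℝ) < q := by exact_mod_cast hq
  set a : ℕ → ℝ := fun n => ξ * ((p:ℝ)/q)^n with ha
  set ε : ℕ → ℝ := fun n => a n - round (a n) with hε
  have hε1 : ∀ n, |ε n| ≤ 1 / 2 := fun n => abs_sub_round _
  have hrel : ∀ n, ∃ s : ℤ, (q:ℝ) * ε (n+1) = p * ε n - s := by
    intro n
    refine ⟨q * round (a (n+1)) - p * round (a n), ?_⟩
    have : (q:ℝ) * a (n+1) = p * a n := by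
      simp only [ha]; rw [pow_succ]; field_simp
    simp only [hε]; push_cast; linarith
  have hbd : IsBoundedUnder (· ≤ ·) atTop (fun n => |ε n|) := isBoundedUnder_of ⟨1/2, hε1⟩
  have hcb : IsCoboundedUnder (· ≤ ·) atTop (fun n => |ε n|) := isCoboundedUnder_le_of_le _ (x := 0) fun n => abs_nonneg _
  have hlim : limsup (fun n => |ε n|) atTop = t := h
  have hev : ∀ δ > 0, ∀ᶠ n in atTop, |ε n| < t + δ := by
    intro δ hδ
    exact eventually_lt_of_limsup_lt (by rw [hlim]; linarith) hbd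
  have hfr : ∀ δ > 0, ∃ᶠ n in atTop, t - δ < |ε n| := by
    intro δ hδ
    exact frequently_lt_of_lt_limsup hcb (by rw [hlim]; linarith)
  have hcl : MapClusterPt t atTop (fun n => |ε n|) := by
    rw [mapClusterPt_iff_frequently]
    intro s hs
    obtain ⟨δ, hδ, hball⟩ := Metric.mem_nhds_iff.1 hs
    refine ((hfr δ hδ).and_eventually (hev δ hδ)).mono ?_
    rintro n ⟨h1, h2⟩
    apply hball
    rw [Metric.mem_ball, Real.dist_eq, abs_lt]
    constructor <;> linarith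
  obtain ⟨U, hU, hUt⟩ := mapClusterPt_iff_ultrafilter.1 hcl
  have hY : ∀ i : ℕ, ∃ y : ℝ, Tendsto (fun n => ε (n + i)) U (𝓝 y) := by
    intro i
    have hmem : Set.Icc (-(1/2) : ℝ) (1/2) ∈ (U.map fun n => ε (n + i)) := by
      rw [Ultrafilter.mem_map]
      filter_upwards with n
      exact abs_le.1 (hε1 _)
    obtain ⟨y, _, hy⟩ := isCompact_Icc.ultrafilter_le_nhds' _ hmem
    exact ⟨y, hy⟩
  choose Y hY using hY
  have h0 : |Y 0| = t := by
    have h1 : Tendsto (fun n => |ε n|) U (𝓝 |Y 0|) := (hY 0).abs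
    exact tendsto_nhds_unique h1 hUt
  have hle : ∀ i, |Y i| ≤ t := by
    intro i
    apply le_of_forall_pos_le_add
    intro δ hδ
    have h1 : Tendsto (fun n => |ε (n + i)|) U (𝓝 |Y i|) := (hY i).abs
    refine le_of_tendsto h1 ?_
    have h2 : ∀ᶠ n in atTop, |ε (n + i)| < t + δ := (tendsto_add_atTop_nat i).eventually (hev δ hδ)
    exact (h2.filter_mono hU).mono fun n hn => hn.le
  have hr : ∀ i, ∃ n : ℤ, (q:ℝ) * Y (i+1) = p * Y i - n := by
    intro i
    have h1 : Tendsto (fun n => (p:ℝ) * ε (n + i) - q * ε (n + (i+1))) U (𝓝 (p * Y i - q * Y (i+1))) :=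
      ((hY i).const_mul _).sub ((hY (i+1)).const_mul _)
    have h2 : ∀ n, (p:ℝ) * ε (n + i) - q * ε (n + (i+1)) ∈ Set.range ((↑) : ℤ → ℝ) := by
      intro n
      obtain ⟨s, hs⟩ := hrel (n + i)
      refine ⟨s, ?_⟩
      rw [← add_assoc, hs]; ring
    have h3 : (p:ℝ) * Y i - q * Y (i+1) ∈ Set.range ((↑) : ℤ → ℝ) :=
      Int.isClosedEmbedding_coe_real.isClosed_range.mem_of_tendsto h1 (Eventually.of_forall h2)
    obtain ⟨n, hn⟩ := h3
    exact ⟨n, by linarith⟩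
  rcases abs_eq_abs.1 (show |Y 0| = |t| by rw [h0, abs_of_nonneg (h0 ▸ abs_nonneg _)]) with h1 | h1
  · exact ⟨Y, h1, hle, hr⟩
  · refine ⟨fun i => - Y i, by show -Y 0 = t; rw [h1]; ring, fun i => by rw [abs_neg]; exact hle i, fun i => ?_⟩
    obtain ⟨n, hn⟩ := hr i
    exact ⟨-n, by push_cast; linarith⟩

lemma gap (hp : 0 < p) (hq : 0 < q) {τ : ℝ} (s : ℤ) :
    Disjoint (Set.Ioo (((s:ℝ) + q * τ) / p) (((s:ℝ) + 1 - q * τ) / p)) (KS p q τ) := by
  have hp0 : (0:ℝ) < p := by exact_mod_cast hp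
  rw [Set.disjoint_left]
  rintro z ⟨h1, h2⟩ hz
  obtain ⟨s', hs', _⟩ := KS_shift p q hq hz
  rw [abs_le] at hs'
  rw [div_lt_iff₀ hp0] at h1
  rw [lt_div_iff₀ hp0] at h2
  rcases lt_or_ge s s' with h | h
  · have : (s:ℝ) + 1 ≤ s' := by exact_mod_cast h
    linarith
  · have : (s':ℝ) ≤ s := by exact_mod_cast h
    linarith

lemma density (hq : 0 < q) (hqp : q < p) {τ : ℝ} (hτ : 2 * q * τ < 1) (hτ0 : 0 ≤ τ) (j : ℕ) :
    ∀ y ∈ KS p q τ, volume (KS p q τ ∩ Metric.closedBall y (((q:ℝ)/p)^j * (1/p)))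
      ≤ ENNReal.ofReal ((1 - (1 - 2 * q * τ) / 2) * (2 * (((q:ℝ)/p)^j * (1/p)))) := by
  have hp : 0 < p := by omega
  have hp0 : (0:ℝ) < p := by exact_mod_cast hp
  have hq0 : (0:ℝ) < q := by exact_mod_cast hq
  have hr1 : (q:ℝ)/p ≤ 1 := by rw [div_le_one hp0]; exact_mod_cast hqp.le
  -- a gap inside the ball
  have hgap : ∀ (y ρ : ℝ) (s : ℤ), 0 ≤ ρ → 2 * ρ ≤ 2 * (1/p) →
      Set.Ioo (((s:ℝ) + q * τ) / p) (((s:ℝ) + 1 - q * τ) / p) ⊆ Metric.closedBall y ρ →
      volume (KS p q τ ∩ Metric.closedBall y ρ) ≤ ENNReal.ofReal ((1 - (1 - 2 * q * τ) / 2) * (2 * ρ)) := by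
    intro y ρ s hρ0 hρ hsub
    have h1 : KS p q τ ∩ Metric.closedBall y ρ ⊆ Metric.closedBall y ρ \ Set.Ioo (((s:ℝ) + q * τ) / p) (((s:ℝ) + 1 - q * τ) / p) := by
      rintro z ⟨hz1, hz2⟩
      exact ⟨hz2, fun h => Set.disjoint_left.1 (gap p q hp hq s) h hz1⟩
    refine (measure_mono h1).trans ?_
    rw [measure_diff hsub measurableSet_Ioo.nullMeasurableSet (by rw [Real.volume_Ioo]; exact ENNReal.ofReal_ne_top),
      Real.volume_closedBall, Real.volume_Ioo, ← ENNReal.ofReal_sub _ (by rw [← sub_div]; apply div_nonneg _ hp0.le; linarith)]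
    apply ENNReal.ofReal_le_ofReal
    have h2 : ((s:ℝ) + 1 - q * τ) / p - ((s:ℝ) + q * τ) / p = (1 - 2 * q * τ) * (1 / p) := by field_simp; ring
    rw [h2]
    nlinarith
  have key : ∀ (y ρ : ℝ), y ∈ KS p q τ → 0 ≤ ρ → 2 * ρ ≤ 2 * (1/p) → ∀ s : ℤ, |(p:ℝ) * y - s| ≤ q * τ →
      (∃ z ∈ KS p q τ ∩ Metric.closedBall y ρ, ¬ |(p:ℝ) * z - s| ≤ q * τ) →
      volume (KS p q τ ∩ Metric.closedBall y ρ) ≤ ENNReal.ofReal ((1 - (1 - 2 * q * τ) / 2) * (2 * ρ)) := by
    intro y ρ hy hρ0 hρ s hs ⟨z, ⟨hz1, hz2⟩, hz3⟩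
    obtain ⟨s', hs', _⟩ := KS_shift p q hq hz1
    have hne : s' ≠ s := by rintro rfl; exact hz3 hs'
    rw [abs_le] at hs hs'
    rw [Real.closedBall_eq_Icc] at hz2
    rcases lt_or_gt_of_ne hne with h | h
    · -- s' < s
      refine hgap y ρ (s-1) hρ0 hρ ?_
      have h4 : (s':ℝ) ≤ (s:ℝ) - 1 := by
        have : s' ≤ s - 1 := by omega
        exact_mod_cast this
      rw [Real.closedBall_eq_Icc]
      rintro x ⟨hx1, hx2⟩
      rw [div_lt_iff₀ hp0] at hx1
      rw [lt_div_iff₀ hp0] at hx2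
      push_cast at hx1 hx2
      have h5 : z ≤ x := by
        have : z * p ≤ x * p := by linarith
        exact le_of_mul_le_mul_right this hp0
      have h6 : x ≤ y := by
        have : x * p ≤ y * p := by linarith
        exact le_of_mul_le_mul_right this hp0
      exact ⟨hz2.1.trans h5, by linarith⟩
    · refine hgap y ρ s hρ0 hρ ?_
      have h4 : (s:ℝ) + 1 ≤ s' := by exact_mod_cast h
      rw [Real.closedBall_eq_Icc]
      rintro x ⟨hx1, hx2⟩
      rw [div_lt_iff₀ hp0] at hx1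
      rw [lt_div_iff₀ hp0] at hx2
      have h5 : x ≤ z := by
        have : x * p ≤ z * p := by linarith
        exact le_of_mul_le_mul_right this hp0
      have h6 : y ≤ x := by
        have : y * p ≤ x * p := by linarith
        exact le_of_mul_le_mul_right this hp0
      exact ⟨by linarith, h5.trans hz2.2⟩
  induction j with
  | zero =>
    intro y hy
    obtain ⟨s, hs, _⟩ := KS_shift p q hq hy
    rw [abs_le] at hs
    refine hgap y _ s (by positivity) (by simp) ?_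
    rw [Real.closedBall_eq_Icc]
    rintro x ⟨hx1, hx2⟩
    rw [div_lt_iff₀ hp0] at hx1
    rw [lt_div_iff₀ hp0] at hx2
    have h6 : y ≤ x := by
      have : y * p ≤ x * p := by linarith
      exact le_of_mul_le_mul_right this hp0
    have h7 : x ≤ y + 1/p := by
      have : x * p ≤ (y + 1/p) * p := by rw [add_mul, one_div, inv_mul_cancel₀ hp0.ne']; linarith
      exact le_of_mul_le_mul_right this hp0
    have h8 : (0:ℝ) ≤ 1/p := by positivity
    constructor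
    · simp only [pow_zero, one_mul]; linarith
    · simpa using h7
  | succ j ih =>
    intro y hy
    obtain ⟨s, hs, hsK⟩ := KS_shift p q hq hy
    set ρ : ℝ := ((q:ℝ)/p)^(j+1) * (1/p) with hρ
    have hρ0 : 0 ≤ ρ := by positivity
    have hρ1 : ρ ≤ 1/p := by
      rw [hρ]
      have : ((q:ℝ)/p)^(j+1) ≤ 1 := pow_le_one₀ (by positivity) hr1
      have h8 : (0:ℝ) ≤ 1/p := by positivity
      nlinarith
    by_cases hex : ∃ z ∈ KS p q τ ∩ Metric.closedBall y ρ, ¬ |(p:ℝ) * z - s| ≤ q * τ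
    · exact key y ρ hy hρ0 (by linarith) s hs hex
    push Not at hex
    set y' : ℝ := ((p:ℝ)/q) * y - s / q with hy'
    set ρ' : ℝ := ((q:ℝ)/p)^j * (1/p) with hρ'
    have hρρ' : ρ = ((q:ℝ)/p) * ρ' := by rw [hρ, hρ', pow_succ]; ring
    have hsub : KS p q τ ∩ Metric.closedBall y ρ ⊆
        (fun x => ((p:ℝ)/q) * x) ⁻¹' ((fun x => x + (-(s:ℝ)/q)) ⁻¹' (KS p q τ ∩ Metric.closedBall y' ρ')) := by
      rintro z ⟨hz1, hz2⟩
      have hz3 := hex z ⟨hz1, hz2⟩
      obtain ⟨s', hs', hsK'⟩ := KS_shift p q hq hz1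
      have hss : s' = s := by
        rw [abs_le] at hz3 hs'
        have h1 : (s':ℝ) - s < 1 := by linarith
        have h2 : (s:ℝ) - s' < 1 := by linarith
        have h3 : s' - s < 1 := by exact_mod_cast h1
        have h4 : s - s' < 1 := by exact_mod_cast h2
        omega
      subst hss
      refine ⟨?_, ?_⟩
      · show ((p:ℝ)/q) * z + (-(s':ℝ)/q) ∈ _
        rw [show ((p:ℝ)/q) * z + (-(s':ℝ)/q) = ((p:ℝ)/q) * z - s' / q by ring]; exact hsK'
      · show ((p:ℝ)/q) * z + (-(s':ℝ)/q) ∈ _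
        rw [Metric.mem_closedBall, Real.dist_eq] at hz2 ⊢
        rw [hy', show ((p:ℝ)/q) * z + (-(s':ℝ)/q) - (((p:ℝ)/q) * y - s' / q) = ((p:ℝ)/q) * (z - y) by ring, abs_mul, abs_of_pos (by positivity)]
        rw [hρρ'] at hz2
        calc ((p:ℝ)/q) * |z - y| ≤ ((p:ℝ)/q) * (((q:ℝ)/p) * ρ') := mul_le_mul_of_nonneg_left hz2 (by positivity)
          _ = ρ' := by field_simp
    refine (measure_mono hsub).trans ?_
    rw [Real.volume_preimage_mul_left (by positivity), measure_preimage_add_right]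
    have hih := ih y' hsK
    refine (mul_le_mul_right hih _).trans ?_
    rw [← ENNReal.ofReal_mul (abs_nonneg _)]
    apply ENNReal.ofReal_le_ofReal
    rw [abs_of_pos (by positivity), inv_div, hρρ']
    apply le_of_eq; ring

theorem KS_null (hq : 0 < q) (hqp : q < p) {τ : ℝ} (hτ : 2 * q * τ < 1) : volume (KS p q τ) = 0 := by
  by_cases hτ0 : 0 ≤ τ
  swap
  · have : KS p q τ = ∅ := by
      ext y; constructor
      · rintro ⟨Y, _, h, _⟩; exact absurd ((abs_nonneg _).trans (h 0)) hτ0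
      · intro h; exact absurd h (Set.notMem_empty _)
    rw [this]; simp
  have hp : 0 < p := by omega
  have hp0 : (0:ℝ) < p := by exact_mod_cast hp
  have hq0 : (0:ℝ) < q := by exact_mod_cast hq
  have hr1 : (q:ℝ)/p < 1 := by rw [div_lt_one hp0]; exact_mod_cast hqp
  have hB := Besicovitch.ae_tendsto_measure_inter_div (volume : Measure ℝ) (KS p q τ)
  set P : ℝ → Prop := fun x => Tendsto (fun r => volume (KS p q τ ∩ Metric.closedBall x r) / volume (Metric.closedBall x r)) (𝓝[>] 0) (𝓝 1) with hP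
  have hnot : ∀ x ∈ KS p q τ, ¬ P x := by
    intro x hx hPx
    have hseq : Tendsto (fun j : ℕ => ((q:ℝ)/p)^j * (1/p)) atTop (𝓝[>] 0) := by
      rw [tendsto_nhdsWithin_iff]
      constructor
      · have := (tendsto_pow_atTop_nhds_zero_of_lt_one (by positivity : (0:ℝ) ≤ (q:ℝ)/p) hr1).mul_const (1/(p:ℝ))
        simpa using this
      · exact Eventually.of_forall fun j => by show (0:ℝ) < _; positivity
    have h1 := hPx.comp hseq
    have h2 : ∀ j : ℕ, volume (KS p q τ ∩ Metric.closedBall x (((q:ℝ)/p)^j * (1/p))) / volume (Metric.closedBall x (((q:ℝ)/p)^j * (1/p))) ≤ ENNReal.ofReal (1 - (1 - 2 * q * τ) / 2) := by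
      intro j
      have hpos : (0:ℝ) < 2 * (((q:ℝ)/p)^j * (1/p)) := by positivity
      rw [Real.volume_closedBall]
      apply ENNReal.div_le_of_le_mul
      rw [← ENNReal.ofReal_mul (by linarith [mul_nonneg (mul_nonneg (by norm_num : (0:ℝ) ≤ 2) hq0.le) hτ0])]
      exact density p q hq hqp hτ hτ0 j x hx
    have h3 : (1:ENNReal) ≤ ENNReal.ofReal (1 - (1 - 2 * q * τ) / 2) := le_of_tendsto' h1 h2
    rw [ENNReal.one_le_ofReal] at h3
    linarith
  have h1 : (volume.restrict (KS p q τ)) {x | ¬ P x} = 0 := hB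
  have h2 : (volume.restrict (KS p q τ)) (KS p q τ) = 0 := measure_mono_null (fun x hx => hnot x hx) h1
  rwa [Measure.restrict_apply_self] at h2

/-- the part of the spectrum below 1/(2q) is a null set -/
theorem null_below (hq : 0 < q) (hqp : q < p) :
    volume {t : ℝ | t < 1 / (2 * q) ∧ ∃ ξ : ℝ, limsup (fun n : ℕ => nn (ξ * ((p:ℝ)/q)^n)) atTop = t} = 0 := by
  have hq0 : (0:ℝ) < q := by exact_mod_cast hq
  have hsub : {t : ℝ | t < 1 / (2 * q) ∧ ∃ ξ : ℝ, limsup (fun n : ℕ => nn (ξ * ((p:ℝ)/q)^n)) atTop = t} ⊆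
      ⋃ m : ℕ, KS p q (1 / (2 * q) - 1 / (m + 1)) := by
    rintro t ⟨ht, ξ, hξ⟩
    obtain ⟨m, hm⟩ := exists_nat_one_div_lt (show (0:ℝ) < 1 / (2*q) - t by linarith)
    exact Set.mem_iUnion.2 ⟨m, KS_mono p q (by linarith) (mem_KS p q hq ξ t hξ)⟩
  refine measure_mono_null hsub (measure_iUnion_null fun m => KS_null p q hq hqp ?_)
  have : (0:ℝ) < 1 / (m + 1) := by positivity
  have h2 : 2 * (q:ℝ) * (1 / (2 * q)) = 1 := by field_simp
  nlinarith

end Pool.Agent.Helper44.Lag
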