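import Pool.Agent.Helper44.Lag.Steer

set_option linter.all false

namespace Pool.Agent.Helper44.Lag
open Finset

/-- distance to the nearest integer -/
noncomputable def nn (x : ℝ) : ℝ := |x - round x|

lemma nn_le (x : ℝ) (z : ℤ) : nn x ≤ |x - z| := round_le x z

variable (p q : ℕ) (t : ℝ)

def RR (u v : ℤ) (l : ℕ) : Prop :=
  ∀ x : ℝ, |x - v| ≤ t → |((q:ℝ)/p)^l * x - u| ≤ t ∧ ∀ j ≤ l, nn (((q:ℝ)/p)^j * x) ≤ t

lemma RR_refl (u : ℤ) : RR p q t u u 0 := by
  intro x hx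
  refine ⟨by simpa using hx, ?_⟩
  intro j hj
  have : j = 0 := by omega
  subst this
  simpa using (nn_le x u).trans hx

lemma RR_trans {u v w : ℤ} {l m : ℕ} (h1 : RR p q t u v l) (h2 : RR p q t v w m) : RR p q t u w (l + m) := by
  intro x hx
  obtain ⟨h3, h4⟩ := h2 x hx
  obtain ⟨h5, h6⟩ := h1 _ h3
  refine ⟨by rw [pow_add, mul_assoc]; exact h5, ?_⟩
  intro j hj
  by_cases hjm : j ≤ m
  · exact h4 j hjm
  · have := h6 (j - m) (by omega)
    rw [← mul_assoc, ← pow_add, show j - m + m = j by omega] at this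
    exact this

lemma RR_step (hp : 0 < p) {u v : ℤ} (h : |((q:ℤ) * v - p * u : ℤ)| ≤ t * (p - q)) : RR p q t u v 1 := by
  have hp0 : (0:ℝ) < p := by exact_mod_cast hp
  intro x hx
  have h1 : |((q:ℝ)/p)^1 * x - u| ≤ t := by
    have h2 : ((q:ℝ)/p)^1 * x - u = ((((q:ℤ) * v - p * u : ℤ) : ℝ) + q * (x - v)) / p := by
      push_cast; field_simp; ring
    rw [h2, abs_div, abs_of_pos hp0, div_le_iff₀ hp0]
    have h3 : |(((q:ℤ) * v - p * u : ℤ) : ℝ)| ≤ t * (p - q) := by exact_mod_cast h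
    calc |(((q:ℤ) * v - p * u : ℤ) : ℝ) + q * (x - v)| ≤ |(((q:ℤ) * v - p * u : ℤ) : ℝ)| + |q * (x - v)| := abs_add_le _ _
      _ ≤ t * (p - q) + q * t := by
        refine add_le_add h3 ?_
        rw [abs_mul, abs_of_nonneg (by positivity : (0:ℝ) ≤ q)]
        exact mul_le_mul_of_nonneg_left hx (by positivity)
      _ = t * p := by ring
  refine ⟨h1, ?_⟩
  intro j hj
  rcases Nat.le_one_iff_eq_zero_or_eq_one.1 hj with rfl | rfl
  · simpa using (nn_le x v).trans hx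
  · exact (nn_le _ u).trans h1

lemma RR_of_path (hp : 0 < p) (ht : (2 * q - 1 : ℝ) ≤ t * (p - q)) {u v : ℤ} (h : Relation.ReflTransGen (Step p q) u v) :
    ∃ l, RR p q t u v l := by
  induction h with
  | refl => exact ⟨0, RR_refl p q t u⟩
  | @tail b c _ h2 ih =>
    obtain ⟨l, hl⟩ := ih
    refine ⟨l + 1, RR_trans p q t hl (RR_step p q t hp ?_)⟩
    unfold Step at h2
    have h3 : ((|(q:ℤ) * c - p * b| : ℤ) : ℝ) ≤ ((2 * q - 1 : ℤ) : ℝ) := by exact_mod_cast h2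
    push_cast at h3 ⊢
    linarith

/-- from a residue class mod q^l one can go l steps, all values staying in [-t,t], the first one in [a,b],
the last one arbitrary in [-t,t] -/
def Wd (a b : ℝ) (l : ℕ) : Prop :=
  ∃ ρ : ℤ, ∀ v : ℤ, v ≡ ρ [ZMOD (q:ℤ)^l] → ∃ v' : ℤ, RR p q t v v' l ∧
    ∀ x : ℝ, |x - v'| ≤ t → a ≤ ((q:ℝ)/p)^l * x - v ∧ ((q:ℝ)/p)^l * x - v ≤ b

lemma class_back (hcop : Nat.Coprime p q) (l : ℕ) (ρ' w : ℤ) :
    ∃ ρ : ℤ, ∀ v : ℤ, v ≡ ρ [ZMOD (q:ℤ)^(l+1)] → ∃ v1 : ℤ, (q:ℤ) * v1 = p * v + w ∧ v1 ≡ ρ' [ZMOD (q:ℤ)^l] := by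
  have hc : IsCoprime (p : ℤ) ((q : ℤ)^(l+1)) := IsCoprime.pow_right (Nat.isCoprime_iff_coprime.2 hcop)
  obtain ⟨a, b, hab⟩ := hc
  refine ⟨a * (q * ρ' - w), ?_⟩
  intro v hv
  have h1 : (p : ℤ) * v + w ≡ q * ρ' [ZMOD (q:ℤ)^(l+1)] := by
    have h2 : (p : ℤ) * v ≡ p * (a * (q * ρ' - w)) [ZMOD (q:ℤ)^(l+1)] := hv.mul_left _
    have h3 : (p : ℤ) * (a * (q * ρ' - w)) ≡ q * ρ' - w [ZMOD (q:ℤ)^(l+1)] := by
      rw [Int.modEq_iff_dvd]
      refine ⟨b * (q * ρ' - w), ?_⟩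
      linear_combination (- (q * ρ' - w)) * hab
    have h4 := (h2.trans h3).add_right w
    simpa using h4
  rw [Int.modEq_iff_dvd] at h1
  obtain ⟨c, hc⟩ := h1
  refine ⟨ρ' - q ^ l * c, ?_, ?_⟩
  · rw [pow_succ] at hc; linear_combination hc
  · rw [Int.modEq_iff_dvd]; exact ⟨c, by ring⟩

lemma word (hq : 0 < q) (hcop : Nat.Coprime p q) (hpq : 4 * q ≤ p) (ht : 1 ≤ 2 * q * t) (n : ℕ) :
    ∀ a b : ℝ, -t ≤ a → b ≤ t → t ≤ 2 ^ n * (b - a) → ∃ l, Wd p q t a b l := by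
  have hq0 : (0:ℝ) < q := by exact_mod_cast hq
  have hpqr : 4 * (q:ℝ) ≤ p := by exact_mod_cast hpq
  have hp0 : (0:ℝ) < p := by linarith
  have ht0 : 0 < t := by
    by_contra h; push Not at h; nlinarith
  induction n with
  | zero =>
    intro a b ha hb hab
    have hab' : t ≤ b - a := by simpa using hab
    set w : ℤ := ⌈(p:ℝ) * a + q * t⌉ with hw
    have h1 : (p:ℝ) * a + q * t ≤ w := Int.le_ceil _
    have h2 : (w : ℝ) < p * a + q * t + 1 := Int.ceil_lt_add_one _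
    have h3 : (w : ℝ) ≤ p * b - q * t := by nlinarith
    obtain ⟨ρ, hρ⟩ := class_back p q hcop 0 0 w
    refine ⟨1, ρ, ?_⟩
    intro v hv
    obtain ⟨v1, hv1, _⟩ := hρ v hv
    have hv1r : (q:ℝ) * v1 = p * v + w := by exact_mod_cast hv1
    have key : ∀ x : ℝ, |x - v1| ≤ t → a ≤ ((q:ℝ)/p)^1 * x - v ∧ ((q:ℝ)/p)^1 * x - v ≤ b := by
      intro x hx
      rw [abs_le] at hx
      have h4 : ((q:ℝ)/p)^1 * x - v = (w + q * (x - v1)) / p := by
        field_simp; linarith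
      rw [h4]
      constructor
      · rw [le_div_iff₀ hp0]; nlinarith
      · rw [div_le_iff₀ hp0]; nlinarith
    refine ⟨v1, ?_, key⟩
    intro x hx
    obtain ⟨h5, h6⟩ := key x hx
    have h7 : |((q:ℝ)/p)^1 * x - v| ≤ t := abs_le.2 ⟨by linarith, by linarith⟩
    refine ⟨h7, ?_⟩
    intro j hj
    rcases Nat.le_one_iff_eq_zero_or_eq_one.1 hj with rfl | rfl
    · simpa using (nn_le x v1).trans hx
    · exact (nn_le _ v).trans h7
  | succ n ih =>
    intro a b ha hb hab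
    have hba : 0 ≤ b - a := by
      by_contra h; push Not at h
      have : (0:ℝ) < 2 ^ (n+1) := by positivity
      nlinarith
    set w : ℤ := round ((p:ℝ) * ((a + b) / 2)) with hw
    have hw1 : |(p:ℝ) * ((a + b) / 2) - w| ≤ 1 / 2 := abs_sub_round _
    rw [abs_le] at hw1
    -- centre and half length, multiplied by q
    set a' : ℝ := max (-t) ((p * a - w) / q) with ha'
    set b' : ℝ := min t ((p * b - w) / q) with hb'
    have hc1 : -t ≤ ((p:ℝ) * ((a + b) / 2) - w) / q := by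
      rw [le_div_iff₀ hq0]; nlinarith
    have hc2 : ((p:ℝ) * ((a + b) / 2) - w) / q ≤ t := by
      rw [div_le_iff₀ hq0]; nlinarith
    set c : ℝ := ((p:ℝ) * ((a + b) / 2) - w) / q with hc
    set h : ℝ := (p:ℝ) * ((b - a) / 2) / q with hh
    have hh0 : 0 ≤ h := by positivity
    have hh1 : 2 * (b - a) ≤ h := by
      rw [hh, le_div_iff₀ hq0]; nlinarith
    have hea : (p * a - w) / q = c - h := by rw [hc, hh]; ring
    have heb : (p * b - w) / q = c + h := by rw [hc, hh]; ring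
    have hlen : min h t ≤ b' - a' := by
      rw [ha', hb', hea, heb]
      rcases le_total (-t) (c - h) with h1 | h1 <;> rcases le_total t (c + h) with h2 | h2
      · rw [max_eq_right h1, min_eq_left h2]
        have := min_le_left h t
        linarith
      · rw [max_eq_right h1, min_eq_right h2]
        have := min_le_left h t
        linarith
      · rw [max_eq_left h1, min_eq_left h2]
        have := min_le_right h t
        linarith
      · rw [max_eq_left h1, min_eq_right h2]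
        have := min_le_left h t
        linarith
    have hlen2 : t ≤ 2 ^ n * (b' - a') := by
      have h2n : (1:ℝ) ≤ 2 ^ n := one_le_pow₀ (by norm_num)
      rcases min_cases h t with ⟨h1, _⟩ | ⟨h1, _⟩
      · rw [h1] at hlen
        rw [pow_succ] at hab
        nlinarith
      · rw [h1] at hlen; nlinarith
    obtain ⟨l', ρ', hρ'⟩ := ih a' b' (le_max_left _ _) (min_le_left _ _) hlen2
    obtain ⟨ρ, hρ⟩ := class_back p q hcop l' ρ' w
    refine ⟨l' + 1, ρ, ?_⟩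
    intro v hv
    obtain ⟨v1, hv1, hv1c⟩ := hρ v hv
    have hv1r : (q:ℝ) * v1 = p * v + w := by exact_mod_cast hv1
    obtain ⟨v', hR, hab'⟩ := hρ' v1 hv1c
    have key : ∀ x : ℝ, |x - v'| ≤ t → a ≤ ((q:ℝ)/p)^(l'+1) * x - v ∧ ((q:ℝ)/p)^(l'+1) * x - v ≤ b := by
      intro x hx
      obtain ⟨h1, h2⟩ := hab' x hx
      have h3 : (p * a - w) / q ≤ ((q:ℝ)/p)^l' * x - v1 := (le_max_right _ _).trans h1
      have h4 : ((q:ℝ)/p)^l' * x - v1 ≤ (p * b - w) / q := h2.trans (min_le_right _ _)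
      set y := ((q:ℝ)/p)^l' * x - v1 with hy
      have h5 : ((q:ℝ)/p)^(l'+1) * x - v = (w + q * y) / p := by
        rw [hy, pow_succ, mul_comm (((q:ℝ)/p)^l') _, mul_assoc]
        field_simp; linarith
      rw [h5]
      rw [div_le_iff₀ hq0] at h3
      rw [le_div_iff₀ hq0] at h4
      constructor
      · rw [le_div_iff₀ hp0]; linarith
      · rw [div_le_iff₀ hp0]; linarith
    refine ⟨v', ?_, key⟩
    intro x hx
    obtain ⟨h5, h6⟩ := key x hx
    have h7 : |((q:ℝ)/p)^(l'+1) * x - v| ≤ t := abs_le.2 ⟨by linarith, by linarith⟩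
    refine ⟨h7, ?_⟩
    intro j hj
    rcases Nat.lt_or_ge j (l'+1) with h8 | h8
    · exact (hR x hx).2 j (by omega)
    · have : j = l' + 1 := by omega
      subst this
      exact (nn_le _ v).trans h7

lemma nn_lower {X : ℝ} {v : ℤ} (h0 : 0 ≤ X - v) (h1 : X - v ≤ 1 / 2) : X - v ≤ nn X := by
  unfold nn
  rcases lt_or_ge (round X) (v + 1) with h | h
  · have h2 : ((round X : ℤ) : ℝ) ≤ v := by exact_mod_cast (by omega : round X ≤ v)
    rw [abs_of_nonneg (by linarith)]; linarith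
  · have h2 : (v : ℝ) + 1 ≤ ((round X : ℤ) : ℝ) := by exact_mod_cast h
    rw [abs_of_nonpos (by linarith)]; linarith

lemma stage (hq : 0 < q) (hcop : Nat.Coprime p q) (hpq : 4 * q ≤ p) (ht : 1 ≤ 2 * q * t) (ht2 : t ≤ 1 / 2)
    (ht3 : (2 * q - 1 : ℝ) ≤ t * (p - q)) (u : ℤ) (δ : ℝ) (hδ : 0 < δ) :
    ∃ v : ℤ, ∃ l : ℕ, 1 ≤ l ∧ RR p q t u v l ∧ ∃ j ≤ l, ∀ x : ℝ, |x - v| ≤ t → t - δ ≤ nn (((q:ℝ)/p)^j * x) := by
  have hq0 : (0:ℝ) < q := by exact_mod_cast hq
  have ht0 : 0 < t := by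
    by_contra h; push Not at h; nlinarith
  have hp : 0 < p := by omega
  set δ' := min δ t with hδ'
  have hδ'0 : 0 < δ' := lt_min hδ ht0
  obtain ⟨n, hn⟩ := pow_unbounded_of_one_lt (t / δ') (show (1:ℝ) < 2 by norm_num)
  rw [div_lt_iff₀ hδ'0] at hn
  obtain ⟨l', ρ, hρ⟩ := word p q t hq hcop hpq ht n (t - δ') t (by linarith [min_le_right δ t]) le_rfl (by rw [sub_sub_cancel]; exact hn.le)
  obtain ⟨v0, hpath, hv0⟩ := steer p q hq hcop hpq l' u ρ
  obtain ⟨l0, hl0⟩ := RR_of_path p q t hp ht3 hpath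
  obtain ⟨v', hR, hab⟩ := hρ v0 hv0
  have hl' : 1 ≤ l' := by
    by_contra h
    have : l' = 0 := by omega
    subst this
    have h1 := (hab (v' - t) (by rw [sub_sub_cancel_left, abs_neg, abs_of_pos ht0])).1
    have h2 := (hab (v' + t) (by rw [add_sub_cancel_left, abs_of_pos ht0])).2
    simp at h1 h2
    have := min_le_right δ t
    linarith
  refine ⟨v', l0 + l', by omega, RR_trans p q t hl0 hR, l', by omega, ?_⟩
  intro x hx
  obtain ⟨h1, h2⟩ := hab x hx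
  have h3 := min_le_right δ t
  have h4 := min_le_left δ t
  have := nn_lower (X := ((q:ℝ)/p)^l' * x) (v := v0) (by linarith) (by linarith)
  linarith

theorem ray (hq : 0 < q) (hcop : Nat.Coprime p q) (hpq : 4 * q ≤ p) (ht : 1 ≤ 2 * q * t) (ht2 : t ≤ 1 / 2)
    (ht3 : (2 * q - 1 : ℝ) ≤ t * (p - q)) :
    ∃ ξ : ℝ, Filter.limsup (fun n : ℕ => nn (ξ * ((p:ℝ)/q)^n)) Filter.atTop = t := by
  have hq0 : (0:ℝ) < q := by exact_mod_cast hq
  have hp : 0 < p := by omega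
  have hp0 : (0:ℝ) < p := by exact_mod_cast hp
  have ht0 : 0 < t := by
    by_contra h; push Not at h; nlinarith
  have hst : ∀ u : ℤ, ∀ i : ℕ, ∃ v : ℤ, ∃ l : ℕ, 1 ≤ l ∧ RR p q t u v l ∧ ∃ j ≤ l, ∀ x : ℝ, |x - v| ≤ t → t - 1 / (i + 1 : ℝ) ≤ nn (((q:ℝ)/p)^j * x) :=
    fun u i => stage p q t hq hcop hpq ht ht2 ht3 u _ (by positivity)
  choose V Lg h1 h2 Jx h3 h4 using hst
  let s : ℕ → ℤ × ℕ := fun i => Nat.rec (0, 0) (fun i s => (V s.1 i, s.2 + Lg s.1 i)) i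
  have hs : ∀ i, s (i+1) = (V (s i).1 i, (s i).2 + Lg (s i).1 i) := fun i => rfl
  set α : ℝ := (p:ℝ)/q with hα
  have hα0 : 0 < α := by positivity
  have hqp : (q:ℝ)/p = α⁻¹ := by rw [hα, inv_div]
  let I : ℕ → Set ℝ := fun i => {ξ | |ξ * α ^ (s i).2 - (s i).1| ≤ t}
  have hback : ∀ (ξ : ℝ) (m j : ℕ), j ≤ m → ((q:ℝ)/p)^j * (ξ * α ^ m) = ξ * α ^ (m - j) := by
    intro ξ m j hj
    rw [hqp, inv_pow, pow_sub₀ _ hα0.ne' hj]; ring
  have hnest : ∀ i, I (i+1) ⊆ I i := by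
    intro i ξ hξ
    have hξ' : |ξ * α ^ (s (i+1)).2 - (s (i+1)).1| ≤ t := hξ
    rw [hs] at hξ'
    have h5 := (h2 (s i).1 i _ hξ').1
    rw [hback _ _ _ (Nat.le_add_left _ _), Nat.add_sub_cancel] at h5
    exact h5
  have hcl : ∀ i, IsClosed (I i) := fun i => isClosed_le (by fun_prop) continuous_const
  have hne : ∀ i, (I i).Nonempty := by
    intro i
    refine ⟨(s i).1 / α ^ (s i).2, ?_⟩
    show |(s i).1 / α ^ (s i).2 * α ^ (s i).2 - ((s i).1:ℝ)| ≤ t
    rw [div_mul_cancel₀ _ (by positivity), sub_self, abs_zero]; exact ht0.le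
  have hcpt : IsCompact (I 0) := by
    have : I 0 = Set.Icc (-t) t := by
      ext ξ
      show |ξ * α ^ 0 - ((0:ℤ):ℝ)| ≤ t ↔ _
      simp [abs_le]
    rw [this]; exact isCompact_Icc
  obtain ⟨ξ, hξ⟩ := IsCompact.nonempty_iInter_of_sequence_nonempty_isCompact_isClosed I hnest hne hcpt hcl
  rw [Set.mem_iInter] at hξ
  refine ⟨ξ, ?_⟩
  have hup : ∀ i, ∀ n ≤ (s i).2, nn (ξ * α ^ n) ≤ t := by
    intro i
    induction i with
    | zero =>
      intro n hn
      have hn' : n ≤ 0 := hn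
      have hn0 : n = 0 := by omega
      subst hn0
      have := hξ 0
      exact (nn_le _ _).trans this
    | succ i ih =>
      intro n hn
      by_cases hni : n ≤ (s i).2
      · exact ih n hni
      have h5 : |ξ * α ^ (s (i+1)).2 - (s (i+1)).1| ≤ t := hξ (i+1)
      rw [hs] at h5 hn
      have h6 := (h2 (s i).1 i _ h5).2 ((s i).2 + Lg (s i).1 i - n) (by simp only at hn; omega)
      rw [hback _ _ _ (Nat.sub_le _ _), Nat.sub_sub_self hn] at h6
      exact h6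
  have hge : ∀ i, i ≤ (s i).2 := by
    intro i; induction i with
    | zero => simp
    | succ i ih =>
      rw [hs]; have := h1 (s i).1 i; simp only; omega
  have hall : ∀ n, nn (ξ * α ^ n) ≤ t := fun n => hup n n (hge n)
  have hpk : ∀ i : ℕ, ∃ n : ℕ, i ≤ n ∧ t - 1 / (i + 1 : ℝ) ≤ nn (ξ * α ^ n) := by
    intro i
    have h5 : |ξ * α ^ (s (i+1)).2 - (s (i+1)).1| ≤ t := hξ (i+1)
    rw [hs] at h5
    have h6 := h4 (s i).1 i _ h5
    have h7 := h3 (s i).1 i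
    rw [hback _ _ _ (by simp only; omega)] at h6
    refine ⟨_, ?_, h6⟩
    have := hge i
    simp only; omega
  have hnn0 : ∀ x, 0 ≤ nn x := fun x => abs_nonneg _
  apply le_antisymm
  · exact Filter.limsup_le_of_le (Filter.isCoboundedUnder_le_of_le _ (x := 0) fun n => hnn0 _) (Filter.Eventually.of_forall hall)
  · apply le_of_forall_pos_sub_le
    intro ε hε
    apply Filter.le_limsup_of_frequently_le
    · rw [Filter.frequently_atTop]
      intro N
      obtain ⟨i, hi⟩ := exists_nat_one_div_lt hε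
      obtain ⟨n, hn1, hn2⟩ := hpk (max i N)
      refine ⟨n, (le_max_right _ _).trans hn1, ?_⟩
      have : (1:ℝ) / ((max i N : ℕ) + 1 : ℝ) ≤ 1 / (i + 1 : ℝ) := by
        apply one_div_le_one_div_of_le (by positivity)
        have : (i:ℝ) ≤ ((max i N : ℕ) : ℝ) := by exact_mod_cast le_max_left i N
        linarith
      linarith
    · exact Filter.isBoundedUnder_of ⟨t, hall⟩

end Pool.Agent.Helper44.Lag
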