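import Mathlib

set_option linter.all false

namespace Pool.Agent.Helper44.Lag
open Finset

/-- e(x) = exp(2 pi i x) -/
noncomputable def ee (x : ℝ) : ℂ := Complex.exp ((2 * Real.pi * x : ℝ) * Complex.I)

lemma ee_add (x y : ℝ) : ee (x + y) = ee x * ee y := by
  unfold ee; rw [← Complex.exp_add]; congr 1; push_cast; ring

lemma ee_zero : ee 0 = 1 := by unfold ee; simp

lemma norm_ee (x : ℝ) : ‖ee x‖ = 1 := by
  unfold ee; exact Complex.norm_exp_ofReal_mul_I _

lemma ee_int (n : ℤ) : ee n = 1 := by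
  unfold ee
  rw [show ((2 * Real.pi * (n:ℝ) : ℝ) : ℂ) * Complex.I = n * (2 * Real.pi * Complex.I) by push_cast; ring]
  exact Complex.exp_int_mul_two_pi_mul_I n

lemma ee_nat (n : ℕ) : ee n = 1 := by simpa using ee_int n

lemma ee_add_int (x : ℝ) (n : ℤ) : ee (x + n) = ee x := by rw [ee_add, ee_int, mul_one]

lemma ee_neg (x : ℝ) : ee (-x) = (starRingEnd ℂ) (ee x) := by
  unfold ee; rw [← Complex.exp_conj]; congr 1
  rw [map_mul, Complex.conj_ofReal, Complex.conj_I]; push_cast; ring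

lemma ee_re (x : ℝ) : (ee x).re = Real.cos (2 * Real.pi * x) := by
  unfold ee; rw [Complex.exp_ofReal_mul_I_re]

lemma ee_mul_nat (x : ℝ) (n : ℕ) : ee (n * x) = ee x ^ n := by
  induction n with
  | zero => simp [ee_zero]
  | succ n ih => rw [show ((n+1:ℕ):ℝ) * x = n * x + x by push_cast; ring, ee_add, ih, pow_succ]

lemma ee_eq_one {x : ℝ} (h : ee x = 1) : ∃ n : ℤ, x = n := by
  unfold ee at h
  rw [Complex.exp_eq_one_iff] at h
  obtain ⟨n, hn⟩ := h
  refine ⟨n, ?_⟩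
  have hpi : (Real.pi : ℂ) ≠ 0 := by exact_mod_cast Real.pi_ne_zero
  have h2 : ((x : ℝ) : ℂ) = (n : ℂ) := by
    have h3 : (2 * (Real.pi : ℂ) * Complex.I) * ((x:ℝ):ℂ) = (2 * (Real.pi : ℂ) * Complex.I) * (n:ℂ) := by
      rw [show (2 * (Real.pi : ℂ) * Complex.I) * ((x:ℝ):ℂ) = ((2 * Real.pi * x : ℝ) : ℂ) * Complex.I by push_cast; ring, hn]; ring
    exact mul_left_cancel₀ (by simp [hpi, Complex.I_ne_zero]) h3
  exact_mod_cast h2

/-- geometric sum over residues -/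
lemma sum_ee (q : ℕ) (hq : 0 < q) (φ : ℝ) (n : ℤ) :
    ∑ j ∈ range q, ee ((φ + j) * ((n : ℝ) / q)) = if (q : ℤ) ∣ n then (q : ℂ) * ee (φ * ((n / (q:ℤ) : ℤ) : ℝ)) else 0 := by
  have hq0 : (q : ℝ) ≠ 0 := by positivity
  split_ifs with h
  · obtain ⟨m, rfl⟩ := h
    have h1 : ((q : ℤ) * m / (q:ℤ) : ℤ) = m := by
      rw [Int.mul_ediv_cancel_left]; exact_mod_cast hq.ne'
    rw [h1]
    have h2 : ∀ j ∈ range q, ee ((φ + j) * ((((q:ℤ) * m : ℤ) : ℝ) / q)) = ee (φ * m) := by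
      intro j _
      rw [show (φ + j) * ((((q:ℤ) * m : ℤ) : ℝ) / q) = φ * m + ((j * m : ℤ) : ℝ) by push_cast; field_simp]
      rw [ee_add_int]
    rw [sum_congr rfl h2]; simp
  · have h2 : ∀ j ∈ range q, ee ((φ + j) * ((n : ℝ) / q)) = ee (φ * ((n:ℝ)/q)) * ee ((n:ℝ)/q) ^ j := by
      intro j _
      rw [add_mul, ee_add, ee_mul_nat]
    rw [sum_congr rfl h2, ← mul_sum]
    have hz : ee ((n:ℝ)/q) ≠ 1 := by
      intro hh
      obtain ⟨m, hm⟩ := ee_eq_one hh
      apply h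
      refine ⟨m, ?_⟩
      have : (n : ℝ) = q * m := by field_simp at hm; linarith
      exact_mod_cast this
    have hg := geom_sum_eq hz q
    rw [hg, ← ee_mul_nat, show (q : ℝ) * ((n:ℝ)/q) = (n : ℝ) by field_simp, ee_int]
    simp

/-- F(θ) = |sum_{a<q} e(aθ)|^2/q^2 -/
noncomputable def FF (q : ℕ) (θ : ℝ) : ℝ := ‖∑ a ∈ range q, ee (a * θ)‖ ^ 2 / (q : ℝ) ^ 2

noncomputable def KK (φ : ℝ) : ℝ := (1 + Real.cos (2 * Real.pi * φ)) / 2

lemma FF_nonneg (q : ℕ) (θ : ℝ) : 0 ≤ FF q θ := by unfold FF; positivity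

lemma KK_nonneg (φ : ℝ) : 0 ≤ KK φ := by
  unfold KK; have := Real.neg_one_le_cos (2 * Real.pi * φ); linarith

lemma KK_le (φ : ℝ) : KK φ ≤ 1 := by
  unfold KK; have := Real.cos_le_one (2 * Real.pi * φ); linarith

lemma FF_add_one (q : ℕ) (θ : ℝ) : FF q (θ + 1) = FF q θ := by
  unfold FF
  have : ∀ a ∈ range q, ee (a * (θ + 1)) = ee (a * θ) := by
    intro a _
    rw [show (a:ℝ) * (θ + 1) = a * θ + ((a : ℤ) : ℝ) by push_cast; ring, ee_add_int]
  rw [sum_congr rfl this]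

/-- the product form of F -/
lemma FF_prod (q : ℕ) (hq : 0 < q) (θ : ℝ) :
    ((FF q θ : ℝ) : ℂ) = (∑ a ∈ range q, ∑ b ∈ range q, ee (((a:ℝ) - b) * θ)) / (q : ℂ) ^ 2 := by
  unfold FF
  push_cast
  congr 1
  rw [← Complex.ofReal_pow, Complex.sq_norm, Complex.normSq_eq_conj_mul_self, map_sum, mul_comm, sum_mul_sum]
  refine sum_congr rfl fun a _ => sum_congr rfl fun b _ => ?_
  rw [← ee_neg, ← ee_add]; congr 1; ring

variable (p q : ℕ)

/-- the averaging operator -/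
noncomputable def AA : (ℤ → ℂ) →ₗ[ℂ] (ℤ → ℂ) where
  toFun h := fun v => (2 * h v + h (v + 1) + h (v - 1)) / 4
  map_add' f g := by funext v; simp; ring
  map_smul' c f := by funext v; simp; ring

noncomputable def BB : (ℤ → ℂ) →ₗ[ℂ] (ℤ → ℂ) where
  toFun h := fun u => ∑ a ∈ range q, ∑ b ∈ range q,
    if (q : ℤ) ∣ (p * u + a - b) then (1 / (q:ℂ)) * h ((p * u + a - b) / (q:ℤ)) else 0
  map_add' f g := by
    funext u; simp only [Pi.add_apply]
    rw [← sum_add_distrib]; refine sum_congr rfl fun a _ => ?_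
    rw [← sum_add_distrib]; refine sum_congr rfl fun b _ => ?_
    split_ifs <;> ring
  map_smul' c f := by
    funext u; simp only [Pi.smul_apply, smul_eq_mul, RingHom.id_apply]
    rw [mul_sum]; refine sum_congr rfl fun a _ => ?_
    rw [mul_sum]; refine sum_congr rfl fun b _ => ?_
    split_ifs <;> ring

noncomputable def TT : (ℤ → ℂ) →ₗ[ℂ] (ℤ → ℂ) := BB p q ∘ₗ AA

noncomputable def ch (φ : ℝ) : ℤ → ℂ := fun v => ee (φ * v)

lemma AA_ch (φ : ℝ) : AA (ch φ) = ((KK φ : ℝ) : ℂ) • ch φ := by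
  funext v
  show (2 * ee (φ * v) + ee (φ * ((v + 1 : ℤ) : ℝ)) + ee (φ * ((v - 1 : ℤ) : ℝ))) / 4 = ((KK φ : ℝ) : ℂ) * ee (φ * v)
  rw [show φ * ((v + 1 : ℤ) : ℝ) = φ * v + φ by push_cast; ring,
    show φ * ((v - 1 : ℤ) : ℝ) = φ * v + (-φ) by push_cast; ring, ee_add, ee_add, ee_neg]
  have h1 : ee φ + (starRingEnd ℂ) (ee φ) = ((2 * Real.cos (2 * Real.pi * φ) : ℝ) : ℂ) := by
    rw [Complex.add_conj, ee_re]
  unfold KK
  have h2 : (2 * ee (φ * v) + ee (φ * v) * ee φ + ee (φ * v) * (starRingEnd ℂ) (ee φ)) = ee (φ * v) * (2 + (ee φ + (starRingEnd ℂ) (ee φ))) := by ring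
  rw [h2, h1]; push_cast; ring

lemma BB_ch (hq : 0 < q) (φ : ℝ) :
    BB p q (ch φ) = ∑ j ∈ range q, ((FF q ((φ + j) / q) : ℝ) : ℂ) • ch (p * (φ + j) / q) := by
  have hq0 : (q : ℝ) ≠ 0 := by positivity
  have hqc : (q : ℂ) ≠ 0 := by exact_mod_cast hq.ne'
  funext u
  rw [Finset.sum_apply]
  show (∑ a ∈ range q, ∑ b ∈ range q,
    if (q : ℤ) ∣ (p * u + a - b) then (1 / (q:ℂ)) * ee (φ * (((p * u + a - b) / (q:ℤ) : ℤ) : ℝ)) else 0) =
    ∑ j ∈ range q, ((FF q ((φ + j) / q) : ℝ) : ℂ) * ee ((p * (φ + j) / q) * u)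
  have h1 : ∀ a b : ℕ, (if (q : ℤ) ∣ (p * u + a - b) then (1 / (q:ℂ)) * ee (φ * (((p * u + a - b) / (q:ℤ) : ℤ) : ℝ)) else 0)
      = ∑ j ∈ range q, ee (((a:ℝ) - b) * ((φ + j) / q)) / (q:ℂ)^2 * ee ((p * (φ + j) / q) * u) := by
    intro a b
    have h2 := sum_ee q hq φ (p * u + a - b)
    have h3 : ∑ j ∈ range q, ee (((a:ℝ) - b) * ((φ + j) / q)) / (q:ℂ)^2 * ee ((p * (φ + j) / q) * u)
        = (∑ j ∈ range q, ee ((φ + j) * (((p * u + a - b : ℤ) : ℝ) / q))) / (q:ℂ)^2 := by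
      rw [sum_div]; refine sum_congr rfl fun j _ => ?_
      rw [div_mul_eq_mul_div, ← ee_add]; congr 2; push_cast; field_simp; ring
    rw [h3, h2]
    split_ifs with h
    · field_simp
    · simp
  simp_rw [h1]
  have h4 : ∀ a ∈ range q, (∑ b ∈ range q, ∑ j ∈ range q, ee (((a:ℝ) - b) * ((φ + j) / q)) / (q:ℂ)^2 * ee ((p * (φ + j) / q) * u))
     = ∑ j ∈ range q, ∑ b ∈ range q, ee (((a:ℝ) - b) * ((φ + j) / q)) / (q:ℂ)^2 * ee ((p * (φ + j) / q) * u) := fun a _ => sum_comm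
  rw [sum_congr rfl h4, sum_comm]
  refine sum_congr rfl fun j _ => ?_
  rw [FF_prod q hq, sum_div, sum_mul]
  refine sum_congr rfl fun a _ => ?_
  rw [sum_div, sum_mul]

lemma FF_sum (hq : 0 < q) (φ : ℝ) : ∑ j ∈ range q, FF q ((φ + j) / q) = 1 := by
  have h := congrFun (BB_ch 1 q hq φ) 0
  rw [Finset.sum_apply] at h
  have h0 : (∑ j ∈ range q, (((FF q ((φ + j) / q) : ℝ) : ℂ) • ch ((1:ℕ) * (φ + j) / q)) 0) = ((∑ j ∈ range q, FF q ((φ + j) / q) : ℝ) : ℂ) := by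
    push_cast
    refine sum_congr rfl fun j _ => ?_
    simp [ch, ee_zero]
  rw [h0] at h
  have h1 : BB 1 q (ch φ) 0 = 1 := by
    show (∑ a ∈ range q, ∑ b ∈ range q,
      if (q : ℤ) ∣ ((1:ℕ) * 0 + a - b) then (1 / (q:ℂ)) * ee (φ * ((((1:ℕ) * 0 + a - b) / (q:ℤ) : ℤ) : ℝ)) else 0) = 1
    have h2 : ∀ a ∈ range q, (∑ b ∈ range q,
      if (q : ℤ) ∣ ((1:ℕ) * 0 + a - b) then (1 / (q:ℂ)) * ee (φ * ((((1:ℕ) * 0 + a - b) / (q:ℤ) : ℤ) : ℝ)) else 0) = 1 / (q : ℂ) := by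
      intro a ha
      rw [sum_eq_single a]
      · simp [ee_zero]
      · intro b hb hab
        rw [if_neg]
        intro hd
        apply hab
        have ha' := mem_range.1 ha
        have hb' := mem_range.1 hb
        obtain ⟨m, hm⟩ := hd
        have h3 : (a : ℤ) - b = q * m := by push_cast at hm; linarith
        have h4 : m = 0 := by
          by_contra hm0
          rcases lt_or_gt_of_ne hm0 with h5 | h5
          · have : (q : ℤ) * m ≤ -q := by nlinarith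
            omega
          · have : (q : ℤ) * m ≥ q := by nlinarith
            omega
        rw [h4] at h3; omega
      · intro h; exact absurd ha h
    rw [sum_congr rfl h2]
    have hqc : (q : ℂ) ≠ 0 := by exact_mod_cast hq.ne'
    simp [hqc]
  rw [h1] at h
  exact_mod_cast h.symm

lemma TT_ch (hq : 0 < q) (φ : ℝ) :
    TT p q (ch φ) = ∑ j ∈ range q, ((KK φ * FF q ((φ + j) / q) : ℝ) : ℂ) • ch (p * (φ + j) / q) := by
  unfold TT
  rw [LinearMap.comp_apply, AA_ch, map_smul, BB_ch p q hq, smul_sum]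
  refine sum_congr rfl fun j _ => ?_
  rw [smul_smul]; push_cast; rfl

/-- majorant of the powers of TT on characters -/
noncomputable def EE : ℕ → ℝ → ℝ
  | 0, _ => 1
  | (k+1), φ => ∑ j ∈ range q, KK φ * FF q ((φ + j) / q) * EE k (p * (φ + j) / q)

lemma EE_nonneg (k : ℕ) : ∀ φ, 0 ≤ EE p q k φ := by
  induction k with
  | zero => intro φ; simp [EE]
  | succ k ih =>
    intro φ; simp only [EE]
    exact sum_nonneg fun j _ => mul_nonneg (mul_nonneg (KK_nonneg _) (FF_nonneg _ _)) (ih _)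

lemma EE_succ_le (hq : 0 < q) (k : ℕ) : ∀ φ, EE p q (k+1) φ ≤ EE p q k φ := by
  induction k with
  | zero =>
    intro φ
    simp only [EE, mul_one]
    rw [← mul_sum, FF_sum q hq]
    simpa using KK_le φ
  | succ k ih =>
    intro φ
    rw [EE, EE]
    exact sum_le_sum fun j _ => mul_le_mul_of_nonneg_left (ih _) (mul_nonneg (KK_nonneg _) (FF_nonneg _ _))

lemma TT_pow_bound (hq : 0 < q) (k : ℕ) : ∀ (φ : ℝ) (u : ℤ), ‖((TT p q) ^ k) (ch φ) u‖ ≤ EE p q k φ := by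
  induction k with
  | zero => intro φ u; simp [EE, ch, norm_ee]
  | succ k ih =>
    intro φ u
    rw [pow_succ, Module.End.mul_apply, TT_ch p q hq, map_sum, Finset.sum_apply, EE]
    refine (norm_sum_le _ _).trans (sum_le_sum fun j _ => ?_)
    rw [map_smul, Pi.smul_apply, norm_smul, Complex.norm_real, Real.norm_of_nonneg (mul_nonneg (KK_nonneg _) (FF_nonneg _ _))]
    exact mul_le_mul_of_nonneg_left (ih _ _) (mul_nonneg (KK_nonneg _) (FF_nonneg _ _))

/-- periodicity -/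
lemma EE_per (hq : 0 < q) (k : ℕ) : ∀ φ, EE p q k (φ + 1) = EE p q k φ := by
  have hq0 : (q : ℝ) ≠ 0 := by positivity
  induction k with
  | zero => intro φ; simp [EE]
  | succ k ih =>
    intro φ
    have hnat : ∀ (n : ℕ) x, EE p q k (x + n) = EE p q k x := by
      intro n; induction n with
      | zero => intro x; simp
      | succ n ihn => intro x; rw [show x + ((n+1 : ℕ) : ℝ) = (x + n) + 1 by push_cast; ring, ih, ihn]
    rw [EE, EE]
    have hK : KK (φ + 1) = KK φ := by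
      unfold KK; rw [show 2 * Real.pi * (φ + 1) = 2 * Real.pi * φ + 2 * Real.pi by ring, Real.cos_add_two_pi]
    rw [hK]
    set g : ℕ → ℝ := fun j => KK φ * FF q ((φ + j) / q) * EE p q k (p * (φ + j) / q) with hg
    have h1 : ∀ j ∈ range q, KK φ * FF q ((φ + 1 + j) / q) * EE p q k (p * (φ + 1 + j) / q) = g (j + 1) := by
      intro j _; simp only [hg]; push_cast
      rw [show φ + 1 + (j:ℝ) = φ + (j + 1) by ring]
    rw [sum_congr rfl h1]
    have h2 : g q = g 0 := by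
      simp only [hg]
      rw [show (φ + (q:ℝ)) / q = (φ + ((0:ℕ):ℝ)) / q + 1 by field_simp; simp, FF_add_one,
        show (p:ℝ) * (φ + q) / q = p * (φ + ((0:ℕ):ℝ)) / q + (p : ℕ) by field_simp; simp, hnat]
    have h3 := sum_range_succ g q
    have h4 := sum_range_succ' g q
    linarith

lemma EE_per_int (hq : 0 < q) (k : ℕ) (n : ℤ) (φ : ℝ) : EE p q k (φ + n) = EE p q k φ := by
  have h : Function.Periodic (EE p q k) 1 := EE_per p q hq k
  have := h.int_mul n φ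
  simpa using this

/-- the limit -/
noncomputable def LL (φ : ℝ) : ℝ := ⨅ k, EE p q k φ

lemma LL_tendsto (hq : 0 < q) (φ : ℝ) : Filter.Tendsto (fun k => EE p q k φ) Filter.atTop (nhds (LL p q φ)) := by
  apply tendsto_atTop_ciInf
  · exact antitone_nat_of_succ_le fun k => EE_succ_le p q hq k φ
  · exact ⟨0, by rintro _ ⟨k, rfl⟩; exact EE_nonneg p q k φ⟩

lemma LL_nonneg (φ : ℝ) : 0 ≤ LL p q φ := by
  unfold LL; exact Real.iInf_nonneg fun k => EE_nonneg p q k φ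

lemma LL_le_one (hq : 0 < q) (φ : ℝ) : LL p q φ ≤ 1 := by
  have : LL p q φ ≤ EE p q 0 φ := ciInf_le ⟨0, by rintro _ ⟨k, rfl⟩; exact EE_nonneg p q k φ⟩ 0
  simpa [EE] using this

lemma LL_rec (hq : 0 < q) (φ : ℝ) :
    LL p q φ = ∑ j ∈ range q, KK φ * FF q ((φ + j) / q) * LL p q (p * (φ + j) / q) := by
  have h1 := (LL_tendsto p q hq φ).comp (Filter.tendsto_add_atTop_nat 1)
  have h2 : Filter.Tendsto (fun k => ∑ j ∈ range q, KK φ * FF q ((φ + j) / q) * EE p q k (p * (φ + j) / q)) Filter.atTop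
      (nhds (∑ j ∈ range q, KK φ * FF q ((φ + j) / q) * LL p q (p * (φ + j) / q))) :=
    tendsto_finset_sum _ fun j _ => (LL_tendsto p q hq _).const_mul _
  exact tendsto_nhds_unique h1 h2

lemma LL_per_int (hq : 0 < q) (n : ℤ) (φ : ℝ) : LL p q (φ + n) = LL p q φ := by
  unfold LL; congr 1; funext k; exact EE_per_int p q hq k n φ

/-- non-integral q-rational numbers -/
def QR (φ : ℝ) : Prop := (∃ (J : ℕ) (b : ℤ), φ = b / (q:ℝ) ^ J) ∧ ∀ n : ℤ, φ ≠ n

lemma QR_add_int {φ : ℝ} (h : QR q φ) (hq : 0 < q) (n : ℤ) : QR q (φ + n) := by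
  obtain ⟨⟨J, b, hb⟩, h2⟩ := h
  have hq0 : (q : ℝ) ^ J ≠ 0 := by positivity
  refine ⟨⟨J, b + n * q ^ J, ?_⟩, ?_⟩
  · rw [hb]; push_cast; field_simp
  · intro m hm; apply h2 (m - n); push_cast; linarith

lemma QR_step {φ : ℝ} (h : QR q φ) (hq : 0 < q) (hcop : Nat.Coprime p q) (j : ℕ) : QR q (p * (φ + j) / q) := by
  obtain ⟨⟨J, b, hb⟩, h2⟩ := h
  have hq0 : (q : ℝ) ^ J ≠ 0 := by positivity
  have hq1 : (q : ℝ) ≠ 0 := by positivity
  refine ⟨⟨J + 1, p * (b + j * q ^ J), ?_⟩, ?_⟩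
  · rw [hb]; push_cast; rw [pow_succ]; field_simp
  · intro n hn
    have h3 : (p : ℝ) * (b + j * q ^ J) = n * q ^ (J + 1) := by
      rw [hb] at hn; field_simp at hn; rw [pow_succ]; linarith
    have h4 : (p : ℤ) * (b + j * q ^ J) = n * q ^ (J + 1) := by exact_mod_cast h3
    have h5 : (q : ℤ) ^ (J + 1) ∣ b + j * q ^ J := by
      have hc : IsCoprime ((q : ℤ) ^ (J+1)) (p : ℤ) := by
        apply IsCoprime.pow_left
        exact (Nat.isCoprime_iff_coprime.2 hcop).symm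
      apply hc.dvd_of_dvd_mul_left
      exact ⟨n, by rw [h4]; ring⟩
    have h6 : (q : ℤ) ^ J ∣ b := by
      have h7 : (q : ℤ) ^ J ∣ b + j * q ^ J := (pow_dvd_pow _ (Nat.le_succ J)).trans h5
      exact (Int.dvd_add_left (Dvd.intro_left _ rfl)).1 h7
    obtain ⟨m, hm⟩ := h6
    apply h2 m
    rw [hb, hm]; push_cast; field_simp

lemma FF_zero_lower (hq : 0 < q) (ψ : ℝ) : 1 - 40 * ψ ^ 2 ≤ FF q (ψ / q) := by
  have hq0 : (0 : ℝ) < q := by positivity
  set x := 2 * Real.pi ^ 2 * ψ ^ 2 with hx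
  have hx0 : 0 ≤ x := by positivity
  have hpi : Real.pi ^ 2 ≤ 10 := by nlinarith [Real.pi_lt_d2, Real.pi_pos]
  have h40 : 2 * x ≤ 40 * ψ ^ 2 := by rw [hx]; nlinarith [sq_nonneg ψ]
  by_cases hx1 : 1 ≤ x
  · have := FF_nonneg q (ψ / q); nlinarith
  push Not at hx1
  have h1 : (q : ℝ) * (1 - x) ≤ ‖∑ a ∈ range q, ee (a * (ψ / q))‖ := by
    refine le_trans ?_ (Complex.re_le_norm _)
    rw [Complex.re_sum]
    have h2 : ∀ a ∈ range q, 1 - x ≤ (ee (a * (ψ / q))).re := by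
      intro a ha
      rw [ee_re]
      have h3 := Real.one_sub_sq_div_two_le_cos (x := 2 * Real.pi * (a * (ψ / q)))
      refine le_trans ?_ h3
      have ha' : (a : ℝ) ≤ q := by exact_mod_cast (mem_range.1 ha).le
      have h4 : ((a:ℝ) / q) ^ 2 ≤ 1 := by
        rw [div_pow, div_le_one (by positivity)]
        exact pow_le_pow_left₀ (by positivity) ha' 2
      have h5 : (2 * Real.pi * (a * (ψ / q))) ^ 2 / 2 = x * ((a:ℝ) / q) ^ 2 := by rw [hx]; field_simp
      rw [h5]; nlinarith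
    calc (q:ℝ) * (1 - x) = ∑ a ∈ range q, (1 - x) := by simp; ring
      _ ≤ _ := sum_le_sum h2
  have h2 : (1 - x) ^ 2 ≤ FF q (ψ / q) := by
    unfold FF
    rw [le_div_iff₀ (by positivity)]
    calc (1 - x) ^ 2 * (q:ℝ) ^ 2 = ((q:ℝ) * (1 - x)) ^ 2 := by ring
      _ ≤ _ := pow_le_pow_left₀ (by nlinarith) h1 2
  nlinarith

/-- one round of contraction -/
lemma contract (hq : 0 < q) (hcop : Nat.Coprime p q) (hpq : 4 * q ≤ p) :
    ∃ c : ℝ, 0 < c ∧ c ≤ 1 ∧ ∀ m : ℝ, 0 ≤ m → (∀ φ, QR q φ → LL p q φ ≤ m) → ∀ φ, QR q φ → LL p q φ ≤ (1 - c) * m := by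
  have hq0 : (0 : ℝ) < q := by positivity
  set α : ℝ := (p : ℝ) / q with hα
  have hα4 : 4 ≤ α := by
    rw [hα, le_div_iff₀ hq0]; exact_mod_cast hpq
  have hα0 : 0 < α := by linarith
  set ρ : ℝ := 1 / (4 * α) with hρ
  have hρ0 : 0 < ρ := by positivity
  have hαρ : α * ρ = 1 / 4 := by rw [hρ]; field_simp
  have hρ1 : ρ ≤ 1 / 16 := by
    rw [hρ, div_le_div_iff₀ (by positivity) (by norm_num)]; linarith
  set c' : ℝ := (1 - Real.cos (2 * Real.pi * ρ)) / 2 with hc'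
  have hpi := Real.pi_pos
  have hc'0 : 0 < c' := by
    have : Real.cos (2 * Real.pi * ρ) < 1 := by
      have h := Real.cos_lt_cos_of_nonneg_of_le_pi (x := 0) (y := 2 * Real.pi * ρ) le_rfl (by nlinarith) (by positivity)
      simpa using h
    rw [hc']; linarith
  have hc'1 : c' ≤ 1 := by
    have := Real.neg_one_le_cos (2 * Real.pi * ρ); rw [hc']; linarith
  refine ⟨c' / 2, by linarith, by linarith, ?_⟩
  intro m hm hL
  -- step A
  have hA : ∀ φ, QR q φ → ρ ≤ |φ| → |φ| ≤ 1 / 2 → LL p q φ ≤ (1 - c') * m := by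
    intro φ hφ h1 h2
    have hK : KK φ ≤ 1 - c' := by
      have h3 : Real.cos (2 * Real.pi * |φ|) ≤ Real.cos (2 * Real.pi * ρ) := by
        apply Real.cos_le_cos_of_nonneg_of_le_pi
        · positivity
        · nlinarith
        · nlinarith
      have h4 : Real.cos (2 * Real.pi * |φ|) = Real.cos (2 * Real.pi * φ) := by
        rcases abs_cases φ with ⟨h, _⟩ | ⟨h, _⟩
        · rw [h]
        · rw [h, show 2 * Real.pi * -φ = -(2 * Real.pi * φ) by ring, Real.cos_neg]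
      unfold KK; rw [hc']; linarith
    rw [LL_rec p q hq]
    calc ∑ j ∈ range q, KK φ * FF q ((φ + j) / q) * LL p q (p * (φ + j) / q)
        ≤ ∑ j ∈ range q, KK φ * FF q ((φ + j) / q) * m := by
          refine sum_le_sum fun j _ => ?_
          exact mul_le_mul_of_nonneg_left (hL _ (QR_step p q hφ hq hcop j)) (mul_nonneg (KK_nonneg _) (FF_nonneg _ _))
      _ = KK φ * m := by
          rw [← sum_mul, ← mul_sum, FF_sum q hq, mul_one]
      _ ≤ (1 - c') * m := mul_le_mul_of_nonneg_right hK hm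
  -- step B
  have hB : ∀ φ, QR q φ → FF q (φ / q) * (m - LL p q (α * φ)) ≤ m - LL p q φ := by
    intro φ hφ
    have h1 : LL p q φ ≤ ∑ j ∈ range q, FF q ((φ + j) / q) * LL p q (p * (φ + j) / q) := by
      rw [LL_rec p q hq]
      refine sum_le_sum fun j _ => ?_
      have : KK φ * FF q ((φ + j) / q) ≤ 1 * FF q ((φ + j) / q) := mul_le_mul_of_nonneg_right (KK_le φ) (FF_nonneg _ _)
      rw [one_mul] at this
      exact mul_le_mul_of_nonneg_right this (LL_nonneg _ _ _)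
    have h2 : FF q ((φ + ((0:ℕ):ℝ)) / q) * (m - LL p q (p * (φ + ((0:ℕ):ℝ)) / q)) ≤ ∑ j ∈ range q, FF q ((φ + j) / q) * (m - LL p q (p * (φ + j) / q)) :=
      single_le_sum (f := fun j : ℕ => FF q ((φ + j) / q) * (m - LL p q (p * (φ + j) / q)))
        (fun j _ => mul_nonneg (FF_nonneg _ _) (sub_nonneg.2 (hL _ (QR_step p q hφ hq hcop j)))) (mem_range.2 hq)
    have h3 : ∑ j ∈ range q, FF q ((φ + j) / q) * (m - LL p q (p * (φ + j) / q)) = m - ∑ j ∈ range q, FF q ((φ + j) / q) * LL p q (p * (φ + j) / q) := by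
      simp_rw [mul_sub]
      rw [sum_sub_distrib, ← sum_mul, FF_sum q hq, one_mul]
    have h4 : α * φ = p * (φ + ((0:ℕ):ℝ)) / q := by rw [hα]; push_cast; ring
    have h5 : φ / q = (φ + ((0:ℕ):ℝ)) / q := by push_cast; ring
    rw [h4, h5]
    linarith
  -- step C
  set B : ℝ := 80 / (α ^ 2 - 1) with hBdef
  have hden : 0 < α ^ 2 - 1 := by nlinarith
  have hB0 : 0 < B := by positivity
  have hBα : B * (α ^ 2 - 1) = 80 := by rw [hBdef]; field_simp
  have hB1 : B ≤ 16 / 3 := by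
    rw [hBdef, div_le_div_iff₀ hden (by norm_num)]; nlinarith
  have hC : ∀ l : ℕ, ∀ φ, QR q φ → |φ| ≤ 1 / 4 → ρ ≤ α ^ l * |φ| → c' / 2 * m * (1 + B * φ ^ 2) ≤ m - LL p q φ := by
    have hbase : ∀ φ, QR q φ → |φ| ≤ 1 / 4 → ρ ≤ |φ| → c' / 2 * m * (1 + B * φ ^ 2) ≤ m - LL p q φ := by
      intro φ hφ h1 h2
      have h3 := hA φ hφ h2 (by linarith)
      have h4 : φ ^ 2 ≤ 1 / 16 := by rw [← sq_abs]; nlinarith [abs_nonneg φ]
      have h5 : B * φ ^ 2 ≤ 1 := by nlinarith [sq_nonneg φ]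
      have h6 : c' / 2 * m * (1 + B * φ ^ 2) ≤ c' / 2 * m * 2 := mul_le_mul_of_nonneg_left (by linarith) (by positivity)
      linarith
    intro l
    induction l with
    | zero => intro φ hφ h1 h2; exact hbase φ hφ h1 (by simpa using h2)
    | succ l ih =>
      intro φ hφ h1 h2
      by_cases h3 : ρ ≤ |φ|
      · exact hbase φ hφ h1 h3
      push Not at h3
      have hQ : QR q (α * φ) := by
        have := QR_step p q hφ hq hcop 0
        rwa [show (p:ℝ) * (φ + ((0:ℕ):ℝ)) / q = α * φ by rw [hα]; push_cast; ring] at this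
      have h4 : |α * φ| ≤ 1 / 4 := by
        rw [abs_mul, abs_of_pos hα0, ← hαρ]; exact mul_le_mul_of_nonneg_left h3.le hα0.le
      have h5 := ih (α * φ) hQ h4 (by
        rw [abs_mul, abs_of_pos hα0]; rw [pow_succ] at h2; linarith [h2, show α ^ l * α * |φ| = α ^ l * (α * |φ|) by ring])
      have h6 := FF_zero_lower q hq φ
      have h7 := hB φ hφ
      have h8 : 0 ≤ c' / 2 * m := by positivity
      have hφ2 : α ^ 2 * φ ^ 2 ≤ 1 / 16 := by
        have : (α * φ) ^ 2 ≤ 1 / 16 := by rw [← sq_abs]; nlinarith [abs_nonneg (α * φ)]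
        nlinarith
      have h9 : 1 + B * φ ^ 2 ≤ (1 - 40 * φ ^ 2) * (1 + B * (α * φ) ^ 2) := by
        have h10 : B * (α ^ 2 * φ ^ 2) ≤ 1 := by
          calc B * (α ^ 2 * φ ^ 2) ≤ B * (1 / 16) := mul_le_mul_of_nonneg_left hφ2 hB0.le
            _ ≤ 1 := by linarith
        have h11 : 0 ≤ φ ^ 2 := sq_nonneg φ
        have h12 : B * α ^ 2 = 80 + B := by linarith
        have h13 : (1 - 40 * φ ^ 2) * (1 + B * (α * φ) ^ 2) = 1 + (B * α ^ 2) * φ ^ 2 - 40 * φ ^ 2 - 40 * φ ^ 2 * (B * (α ^ 2 * φ ^ 2)) := by ring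
        rw [h13, h12]
        have h14 : 40 * φ ^ 2 * (B * (α ^ 2 * φ ^ 2)) ≤ 40 * φ ^ 2 * 1 := mul_le_mul_of_nonneg_left h10 (by positivity)
        linarith
      have h13 : 0 ≤ 1 + B * (α * φ) ^ 2 := by positivity
      have h14 : 0 ≤ m - LL p q (α * φ) := sub_nonneg.2 (hL _ hQ)
      calc c' / 2 * m * (1 + B * φ ^ 2) ≤ c' / 2 * m * ((1 - 40 * φ ^ 2) * (1 + B * (α * φ) ^ 2)) := mul_le_mul_of_nonneg_left h9 h8
        _ = (1 - 40 * φ ^ 2) * (c' / 2 * m * (1 + B * (α * φ) ^ 2)) := by ring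
        _ ≤ FF q (φ / q) * (c' / 2 * m * (1 + B * (α * φ) ^ 2)) := mul_le_mul_of_nonneg_right h6 (by positivity)
        _ ≤ FF q (φ / q) * (m - LL p q (α * φ)) := mul_le_mul_of_nonneg_left h5 (FF_nonneg _ _)
        _ ≤ _ := h7
  intro φ hφ
  set n := round φ with hn
  have hψ : QR q (φ + ((-n : ℤ) : ℝ)) := QR_add_int q hφ hq (-n)
  rw [← LL_per_int p q hq (-n) φ]
  set ψ := φ + ((-n : ℤ) : ℝ) with hψd
  have h1 : |ψ| ≤ 1 / 2 := by
    rw [hψd]; push_cast; rw [← sub_eq_add_neg]; exact abs_sub_round φ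
  have h0 : 0 < |ψ| := by
    rw [abs_pos]; intro h; exact hψ.2 0 (by rw [h]; simp)
  by_cases h2 : ρ ≤ |ψ|
  · have := hA ψ hψ h2 h1
    nlinarith
  push Not at h2
  obtain ⟨l, hl⟩ := pow_unbounded_of_one_lt (ρ / |ψ|) (show 1 < α by linarith)
  have h3 := hC l ψ hψ (by linarith) (by rw [div_lt_iff₀ h0] at hl; exact hl.le)
  have h4 : c' / 2 * m * 1 ≤ c' / 2 * m * (1 + B * ψ ^ 2) := mul_le_mul_of_nonneg_left (by nlinarith [sq_nonneg ψ]) (by positivity)
  linarith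

lemma LL_eq_zero (hq : 0 < q) (hcop : Nat.Coprime p q) (hpq : 4 * q ≤ p) {φ : ℝ} (hφ : QR q φ) : LL p q φ = 0 := by
  obtain ⟨c, hc0, hc1, hc⟩ := contract p q hq hcop hpq
  have h1 : ∀ n : ℕ, ∀ φ, QR q φ → LL p q φ ≤ (1 - c) ^ n := by
    intro n; induction n with
    | zero => intro φ _; simpa using LL_le_one p q hq φ
    | succ n ih =>
      intro φ hφ
      have := hc ((1 - c) ^ n) (pow_nonneg (by linarith) n) ih φ hφ
      rw [pow_succ]; linarith
  have h2 : Filter.Tendsto (fun n : ℕ => (1 - c) ^ n) Filter.atTop (nhds 0) :=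
    tendsto_pow_atTop_nhds_zero_of_lt_one (by linarith) (by linarith)
  exact le_antisymm (ge_of_tendsto' h2 fun n => h1 n φ hφ) (LL_nonneg _ _ _)

/-- one step of the walk -/
def Step (u v : ℤ) : Prop := |(q : ℤ) * v - p * u| ≤ 2 * q - 1

lemma path_of_ne (hq : 0 < q) (k : ℕ) : ∀ (h : ℤ → ℂ) (u : ℤ), ((TT p q) ^ k) h u ≠ 0 → ∃ v, Relation.ReflTransGen (Step p q) u v ∧ h v ≠ 0 := by
  induction k with
  | zero => intro h u hu; exact ⟨u, .refl, by simpa using hu⟩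
  | succ k ih =>
    intro h u hu
    rw [pow_succ', Module.End.mul_apply] at hu
    set g := ((TT p q) ^ k) h with hg
    have h1 : TT p q g u = ∑ a ∈ range q, ∑ b ∈ range q,
      if (q : ℤ) ∣ (p * u + a - b) then (1 / (q:ℂ)) * (AA g ((p * u + a - b) / (q:ℤ))) else 0 := rfl
    rw [h1] at hu
    obtain ⟨a, ha, hu⟩ := exists_ne_zero_of_sum_ne_zero hu
    obtain ⟨b, hb, hu⟩ := exists_ne_zero_of_sum_ne_zero hu
    split_ifs at hu with hd
    · obtain ⟨w, hw⟩ := hd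
      have hq1 : (q : ℤ) ≠ 0 := by exact_mod_cast hq.ne'
      rw [hw, Int.mul_ediv_cancel_left _ hq1] at hu
      have ha' := mem_range.1 ha
      have hb' := mem_range.1 hb
      have h2 : g w ≠ 0 ∨ g (w + 1) ≠ 0 ∨ g (w - 1) ≠ 0 := by
        by_contra hcon
        push Not at hcon
        apply hu
        show (1 / (q:ℂ)) * ((2 * g w + g (w + 1) + g (w - 1)) / 4) = 0
        rw [hcon.1, hcon.2.1, hcon.2.2]; simp
      have key : ∀ i : ℤ, |i| ≤ 1 → g (w + i) ≠ 0 → ∃ v, Relation.ReflTransGen (Step p q) u v ∧ h v ≠ 0 := by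
        intro i hi hgi
        obtain ⟨v, hv, hv0⟩ := ih h (w + i) hgi
        refine ⟨v, Relation.ReflTransGen.head ?_ hv, hv0⟩
        unfold Step
        have : (q : ℤ) * (w + i) - p * u = (a - b) + q * i := by linarith
        rw [this, abs_le]
        rw [abs_le] at hi
        constructor <;> nlinarith
      rcases h2 with h2 | h2 | h2
      · exact key 0 (by simp) (by simpa using h2)
      · exact key 1 (by simp) h2
      · exact key (-1) (by simp) (by simpa [sub_eq_add_neg] using h2)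
    · exact absurd rfl hu

/-- **Steering lemma**: the walk reaches every residue class modulo powers of q. -/
theorem steer (hq : 0 < q) (hcop : Nat.Coprime p q) (hpq : 4 * q ≤ p) (J : ℕ) (u r : ℤ) :
    ∃ v, Relation.ReflTransGen (Step p q) u v ∧ v ≡ r [ZMOD (q : ℤ) ^ J] := by
  set Q : ℕ := q ^ J with hQ
  have hQ0 : 0 < Q := by positivity
  have hQr : (Q : ℝ) ≠ 0 := by positivity
  set H : ℤ → ℂ := ∑ b ∈ range Q, ee (-(b * r / Q)) • ch (b / Q) with hH
  have hT : ∀ k, ((TT p q) ^ k) H u = ∑ b ∈ range Q, ee (-(b * r / Q)) * ((TT p q) ^ k) (ch (b / Q)) u := by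
    intro k
    rw [hH, map_sum, Finset.sum_apply]
    refine sum_congr rfl fun b _ => ?_
    rw [map_smul]; rfl
  have h0 : ∀ k, ((TT p q) ^ k) (ch 0) = ch 0 := by
    intro k
    induction k with
    | zero => simp
    | succ k ih =>
      have h1 : TT p q (ch 0) = ch 0 := by
        rw [TT_ch p q hq]
        have hs := FF_sum q hq 0
        have hF0 : FF q ((0 + ((0:ℕ):ℝ)) / q) = 1 := by
          unfold FF
          have : ∀ a ∈ range q, ee (a * ((0 + ((0:ℕ):ℝ)) / q)) = 1 := by intro a _; simp [ee_zero]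
          rw [sum_congr rfl this]
          have hq0 : (q : ℝ) ≠ 0 := by positivity
          simp [hq0]
        have hFj : ∀ j ∈ range q, j ≠ 0 → FF q ((0 + (j:ℝ)) / q) = 0 := by
          intro j hj hj0
          have h2 := add_sum_erase (range q) (fun j : ℕ => FF q ((0 + (j:ℝ)) / q)) (mem_range.2 hq)
          rw [hF0, hs] at h2
          have h3 : ∑ x ∈ (range q).erase 0, FF q ((0 + (x:ℝ)) / q) = 0 := by linarith
          exact (sum_eq_zero_iff_of_nonneg fun i _ => FF_nonneg q _).1 h3 j (mem_erase.2 ⟨hj0, hj⟩)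
        rw [sum_eq_single 0]
        · rw [hF0]; simp [KK]
        · intro j hj hj0; rw [hFj j hj hj0]; simp
        · intro h; exact absurd (mem_range.2 hq) h
      rw [pow_succ, Module.End.mul_apply, h1, ih]
  have hlim : Filter.Tendsto (fun k => ∑ b ∈ (range Q).erase 0, EE p q k (b / Q)) Filter.atTop (nhds 0) := by
    have : Filter.Tendsto (fun k => ∑ b ∈ (range Q).erase 0, EE p q k (b / Q)) Filter.atTop (nhds (∑ b ∈ (range Q).erase 0, (0:ℝ))) := by
      refine tendsto_finset_sum _ fun b hb => ?_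
      have hb0 : b ≠ 0 := (mem_erase.1 hb).1
      have hbQ : b < Q := mem_range.1 (mem_erase.1 hb).2
      have hQR : QR q ((b:ℝ) / Q) := by
        refine ⟨⟨J, b, by rw [hQ]; push_cast; ring⟩, ?_⟩
        intro n hn
        have h1 : (b : ℝ) = n * Q := by field_simp at hn; linarith
        have h2 : (b : ℤ) = n * Q := by exact_mod_cast h1
        rcases lt_or_ge n 1 with h3 | h3
        · have : (b : ℤ) ≤ 0 := by rw [h2]; nlinarith
          omega
        · have : (Q : ℤ) ≤ b := by rw [h2]; nlinarith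
          omega
      have := LL_tendsto p q hq ((b:ℝ) / Q)
      rwa [LL_eq_zero p q hq hcop hpq hQR] at this
    simpa using this
  obtain ⟨k, hk⟩ := ((tendsto_order.1 hlim).2 1 one_pos).exists
  have hne : ((TT p q) ^ k) H u ≠ 0 := by
    rw [hT]
    rw [← add_sum_erase (range Q) _ (mem_range.2 hQ0)]
    intro hz
    have h1 : ee (-(((0:ℕ):ℝ) * r / Q)) * ((TT p q) ^ k) (ch (((0:ℕ):ℝ) / Q)) u = 1 := by
      have : ((0:ℕ):ℝ) / Q = 0 := by simp
      rw [this, h0]; simp [ch, ee_zero]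
    rw [h1] at hz
    have h2 : ‖∑ b ∈ (range Q).erase 0, ee (-(b * r / Q)) * ((TT p q) ^ k) (ch (b / Q)) u‖ ≤ ∑ b ∈ (range Q).erase 0, EE p q k (b / Q) := by
      refine (norm_sum_le _ _).trans (sum_le_sum fun b _ => ?_)
      rw [norm_mul, norm_ee, one_mul]
      exact TT_pow_bound p q hq k _ _
    have h3 : ∑ b ∈ (range Q).erase 0, ee (-(b * r / Q)) * ((TT p q) ^ k) (ch (b / Q)) u = -1 := by
      linear_combination hz
    rw [h3] at h2
    simp at h2
    linarith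
  obtain ⟨v, hv, hv0⟩ := path_of_ne p q hq k H u hne
  refine ⟨v, hv, ?_⟩
  have hHv : H v = ∑ j ∈ range Q, ee ((0 + j) * (((v - r : ℤ) : ℝ) / Q)) := by
    rw [hH, Finset.sum_apply]
    refine sum_congr rfl fun b _ => ?_
    show ee (-(b * r / Q)) * ee (b / Q * v) = _
    rw [← ee_add]; congr 1; push_cast; ring
  rw [hHv, sum_ee Q hQ0] at hv0
  split_ifs at hv0 with hd
  · have : (Q : ℤ) = (q : ℤ) ^ J := by rw [hQ]; push_cast; rfl
    rw [← this]
    exact (Int.modEq_iff_dvd.2 hd).symm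
  · exact absurd rfl hv0

end Pool.Agent.Helper44.Lag
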